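import Pool.Agent.K1H73.SQB.Stm

/-!
Piece DEN of project SQB: the small primes in intervals.
-/

set_option autoImplicit false

namespace Pool.Agent.K1H31.SQB

open Finset Pool.Agent.Y862.SQ Pool.Agent.Y681.SQ Pool.Agent.K1H73.SQB

/-- number of the admissible integers in an interval, for a periodic condition -/
lemma window' (P : ℕ → Prop) [DecidablePred P] (M : ℕ) (hM : 0 < M) (hP : Function.Periodic P M)
    (V : ℝ) (hV0 : 0 ≤ V) (hV1 : V ≤ 1) (hex : (((range M).filter P).card : ℝ) = M * V)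
    (b L : ℕ) : |((((Ioc b (b + L)).filter P).card : ℕ) : ℝ) - L * V| ≤ M := by
  have h0 : Ioc b (b + L) = Ico (b + 1) (b + 1 + L) := by
    ext x
    rw [mem_Ioc, mem_Ico]
    omega
  rw [h0]
  obtain ⟨s, t, hst, ht⟩ : ∃ s t, L = M * s + t ∧ t < M :=
    ⟨L / M, L % M, (Nat.div_add_mod L M).symm, Nat.mod_lt _ hM⟩
  have h1 := count_mul P M hP (b + 1) s
  have h2 := count_mul P M hP (b + 1) (s + 1)
  have h3 : s * ((range M).filter P).card ≤ ((Ico (b + 1) (b + 1 + L)).filter P).card := by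
    rw [← h1]
    apply card_le_card
    apply Finset.filter_subset_filter
    apply Ico_subset_Ico_right
    omega
  have h4 : ((Ico (b + 1) (b + 1 + L)).filter P).card ≤ (s + 1) * ((range M).filter P).card := by
    rw [← h2]
    apply card_le_card
    apply Finset.filter_subset_filter
    apply Ico_subset_Ico_right
    rw [hst]
    nlinarith
  have h3' : (s : ℝ) * (((range M).filter P).card : ℝ) ≤
      (((Ico (b + 1) (b + 1 + L)).filter P).card : ℝ) := by
    exact_mod_cast h3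
  have h4' : (((Ico (b + 1) (b + 1 + L)).filter P).card : ℝ) ≤
      (s + 1) * (((range M).filter P).card : ℝ) := by
    exact_mod_cast h4
  rw [hex] at h3' h4'
  have hMr : (0 : ℝ) < M := by exact_mod_cast hM
  have hbr : (t : ℝ) ≤ M := by exact_mod_cast ht.le
  have hb0 : (0 : ℝ) ≤ t := Nat.cast_nonneg t
  have hTr : (L : ℝ) = M * s + t := by rw [hst]; push_cast; ring
  rw [hTr, abs_le]
  have e1 : (t : ℝ) * V ≤ M := by nlinarith
  have e2 : 0 ≤ (t : ℝ) * V := by positivity
  have e3 : (M : ℝ) * V ≤ M := by nlinarith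
  constructor
  · linarith
  · linarith

/-- number of the good classes -/
lemma cp (p q a : ℕ) (hp : p.Prime) (ha : a.Coprime q) :
    (((range p).filter (fun r => ¬ p ∣ r ∧ (p ∣ q → r % p = a % p))).card : ℝ) =
      p * (1 - 1 / (p : ℝ)) * (if p ∣ q then ((p - 1 : ℕ) : ℝ)⁻¹ else 1) := by
  have hp0 : (p : ℝ) ≠ 0 := by exact_mod_cast hp.ne_zero
  have e1 : (p : ℝ) * (1 - 1 / (p : ℝ)) = ((p - 1 : ℕ) : ℝ) := by
    rw [Nat.cast_sub hp.one_le]
    field_simp
    simp
  rw [e1]
  by_cases hpq : p ∣ q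
  · have hpa : ¬ p ∣ a := by
      intro h
      have h1 : p ∣ Nat.gcd a q := Nat.dvd_gcd h hpq
      rw [ha] at h1
      exact hp.one_lt.ne' (Nat.dvd_one.mp h1)
    have h2 : (range p).filter (fun r => ¬ p ∣ r ∧ (p ∣ q → r % p = a % p)) = {a % p} := by
      ext r
      rw [mem_filter, mem_range, mem_singleton]
      constructor
      · rintro ⟨h3, -, h4⟩
        rw [← h4 hpq, Nat.mod_eq_of_lt h3]
      · rintro rfl
        refine ⟨Nat.mod_lt _ hp.pos, ?_, fun _ => Nat.mod_mod _ _⟩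
        intro h
        exact hpa ((Nat.dvd_mod_iff (dvd_refl p)).mp h)
    have hp1 : ((p - 1 : ℕ) : ℝ) ≠ 0 := by
      have : p - 1 ≠ 0 := by
        have := hp.two_le
        omega
      exact_mod_cast this
    rw [h2, card_singleton, if_pos hpq, mul_inv_cancel₀ hp1, Nat.cast_one]
  · have h2 : (range p).filter (fun r => ¬ p ∣ r ∧ (p ∣ q → r % p = a % p)) =
        (range p).filter (fun r => ¬ p ∣ r) := by
      apply Finset.filter_congr
      intro r _
      exact ⟨fun h => h.1, fun h => ⟨h, fun h' => absurd h' hpq⟩⟩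
    have h3 : (range p).filter (fun r => p ∣ r) = {0} := by
      ext r
      rw [mem_filter, mem_range, mem_singleton]
      constructor
      · rintro ⟨a1, a2⟩
        exact Nat.eq_zero_of_dvd_of_lt a2 a1
      · rintro rfl
        exact ⟨hp.pos, dvd_zero p⟩
    rw [h2, card_compl (fun n => p ∣ n) p, h3, card_singleton, if_neg hpq, mul_one,
      Nat.cast_sub hp.one_le]

lemma totient_sqf {q : ℕ} (hq : Squarefree q) :
    Nat.totient q = ∏ p ∈ q.primeFactors, (p - 1) := by
  have h1 := Nat.totient_mul_prod_primeFactors q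
  rw [Nat.prod_primeFactors_of_squarefree hq, mul_comm] at h1
  exact Nat.eq_of_mul_eq_mul_left (Nat.pos_of_ne_zero hq.ne_zero) h1

/-- exact density -/
lemma exactq (q a w : ℕ) (hq : Squarefree q) (ha : a.Coprime q) (hw : q ≤ w) :
    (((range (Mw w)).filter (fun m => ∀ p ∈ pr w, ¬ p ∣ m ∧ (p ∣ q → m % p = a % p))).card : ℝ) =
      Mw w * (V1 w / (Nat.totient q : ℝ)) := by
  have h1 := crt (fun p m => ¬ p ∣ m ∧ (p ∣ q → m % p = a % p)) (pr w)
    (fun p hp => (mem_pr.1 hp).2) (by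
    intro p _ n
    apply and_congr
    · apply not_congr
      exact (Nat.mod_modEq n p).dvd_iff (dvd_refl p)
    · rw [Nat.mod_mod])
  have h2 : (((range (Mw w)).filter (fun m => ∀ p ∈ pr w, ¬ p ∣ m ∧
      (p ∣ q → m % p = a % p))).card : ℝ) =
      ∏ p ∈ pr w, (((range p).filter (fun r => ¬ p ∣ r ∧ (p ∣ q → r % p = a % p))).card : ℝ) := by
    unfold Mw
    exact_mod_cast h1
  rw [h2, Finset.prod_congr rfl (fun p hp => cp p q a (mem_pr.1 hp).2 ha),
    Finset.prod_mul_distrib, Finset.prod_mul_distrib]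
  have h3 : ∏ p ∈ pr w, (if p ∣ q then ((p - 1 : ℕ) : ℝ)⁻¹ else 1) = (Nat.totient q : ℝ)⁻¹ := by
    rw [← Finset.prod_filter]
    have h4 : (pr w).filter (fun p => p ∣ q) = q.primeFactors := by
      ext p
      rw [mem_filter, mem_pr, Nat.mem_primeFactors]
      constructor
      · rintro ⟨⟨-, h5⟩, h6⟩
        exact ⟨h5, h6, hq.ne_zero⟩
      · rintro ⟨h5, h6, h7⟩
        exact ⟨⟨(Nat.le_of_dvd (Nat.pos_of_ne_zero h7) h6).trans hw, h5⟩, h6⟩
    rw [h4, totient_sqf hq, Nat.cast_prod, Finset.prod_inv_distrib]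
  rw [h3]
  have h5 : ((Mw w : ℕ) : ℝ) = ∏ p ∈ pr w, (p : ℝ) := by
    unfold Mw
    rw [Nat.cast_prod]
  rw [h5]
  unfold V1
  rw [div_eq_mul_inv, mul_assoc]

lemma perq (q a w : ℕ) :
    Function.Periodic (fun m => ∀ p ∈ pr w, ¬ p ∣ m ∧ (p ∣ q → m % p = a % p)) (Mw w) := by
  intro m
  apply propext
  apply forall_congr'
  intro p
  apply forall_congr'
  intro hp
  have hd : p ∣ Mw w := Finset.dvd_prod_of_mem _ hp
  apply and_congr
  · apply not_congr
    exact (Nat.dvd_add_left hd)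
  · apply imp_congr_right
    intro _
    obtain ⟨c, hc⟩ := hd
    rw [hc, Nat.add_mul_mod_self_left]

/-- **piece DEN** -/
theorem t_DEN : S_DEN := by
  intro q a w b L hq ha hw
  have hV0 : 0 ≤ V1 w / (Nat.totient q : ℝ) := div_nonneg (V1_pos w).le (Nat.cast_nonneg _)
  have hphi : (1 : ℝ) ≤ (Nat.totient q : ℝ) := by
    have : 0 < Nat.totient q := Nat.totient_pos.mpr (Nat.pos_of_ne_zero hq.ne_zero)
    exact_mod_cast this
  have hV1 : V1 w / (Nat.totient q : ℝ) ≤ 1 := by
    rw [div_le_one (by linarith)]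
    exact (V1_le_one w).trans hphi
  have h := window' (fun m => ∀ p ∈ pr w, ¬ p ∣ m ∧ (p ∣ q → m % p = a % p)) (Mw w) (Mw_pos w)
    (perq q a w) _ hV0 hV1 (exactq q a w hq ha hw) b L
  rw [← mul_div_assoc] at h
  exact h

end Pool.Agent.K1H31.SQB
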